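import Pool.Agent.Helper98.Lang.Defs

/-!
# P7: one more prime, the cross terms (MP_c307ca_nt)
-/

set_option autoImplicit false
set_option linter.unusedVariables false

open Finset

namespace Pool.Agent.Helper33.Lang

open Pool.Agent.Helper98.Lang

theorem mem_tup {q n : ℕ} (hn : n ≠ 0) {d : Fin q → ℕ} :
    d ∈ tup q n ↔ (∀ i, d i ∣ n) ∧ ∀ i j, (d i : ℝ) ≤ Real.exp 1 * d j := by
  unfold tup
  rw [mem_filter, Fintype.mem_piFinset]
  simp only [Nat.mem_divisors, ne_eq, hn, not_false_eq_true, and_true]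

/-- tuples of divisors of `n p` with prescribed set of indices of multiples of `p` -/
noncomputable def XX (q n p : ℕ) (J : Finset (Fin q)) : Finset (Fin q → ℕ) :=
  (tup q (n * p)).filter (fun D => univ.filter (fun i => p ∣ D i) = J)

theorem mem_XX {q n p : ℕ} {J : Finset (Fin q)} (hn : n ≠ 0) (hp : p ≠ 0) {D : Fin q → ℕ} :
    D ∈ XX q n p J ↔ ((∀ i, D i ∣ n * p) ∧ ∀ i j, (D i : ℝ) ≤ Real.exp 1 * D j) ∧
      ∀ i, p ∣ D i ↔ i ∈ J := by
  unfold XX
  rw [mem_filter, mem_tup (mul_ne_zero hn hp), Finset.ext_iff]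
  simp only [mem_filter, mem_univ, true_and]

theorem card_tup_eq (q n p : ℕ) :
    NQ q (n * p) = ∑ J : Finset (Fin q), (XX q n p J).card := by
  unfold NQ XX
  exact card_eq_sum_card_fiberwise (fun _ _ => mem_coe.2 (mem_univ _))

theorem dvd_of_not {n p d : ℕ} (hp : p.Prime) (h : d ∣ n * p) (hd : ¬ p ∣ d) : d ∣ n :=
  (Nat.Coprime.symm ((Nat.Prime.coprime_iff_not_dvd hp).2 hd)).dvd_of_dvd_mul_right h

theorem div_dvd {n p d : ℕ} (hp : p.Prime) (h : d ∣ n * p) (hd : p ∣ d) : d / p ∣ n := by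
  obtain ⟨c, rfl⟩ := hd
  rw [Nat.mul_div_cancel_left _ hp.pos]
  rw [mul_comm n p] at h
  exact Nat.dvd_of_mul_dvd_mul_left hp.pos h

theorem card_empty_le {q n p : ℕ} (hn : n ≠ 0) (hp : p.Prime) :
    (XX q n p ∅).card ≤ NQ q n := by
  apply card_le_card
  intro D hD
  rw [mem_XX hn hp.ne_zero] at hD
  rw [mem_tup hn]
  exact ⟨fun i => dvd_of_not hp (hD.1.1 i) (fun h => absurd ((hD.2 i).1 h) (notMem_empty i)),
    hD.1.2⟩

theorem card_univ_le {q n p : ℕ} (hn : n ≠ 0) (hp : p.Prime) :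
    (XX q n p univ).card ≤ NQ q n := by
  have hpp : (0 : ℝ) < p := by exact_mod_cast hp.pos
  apply card_le_card_of_injOn (fun D i => D i / p)
  · intro D hD
    rw [mem_coe, mem_XX hn hp.ne_zero] at hD
    rw [mem_coe, mem_tup hn]
    refine ⟨fun i => div_dvd hp (hD.1.1 i) ((hD.2 i).2 (mem_univ i)), fun i j => ?_⟩
    obtain ⟨a, ha⟩ := (hD.2 i).2 (mem_univ i)
    obtain ⟨b, hb⟩ := (hD.2 j).2 (mem_univ j)
    have h := hD.1.2 i j
    show ((D i / p : ℕ) : ℝ) ≤ Real.exp 1 * ((D j / p : ℕ) : ℝ)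
    rw [ha, hb, Nat.mul_div_cancel_left _ hp.pos, Nat.mul_div_cancel_left _ hp.pos]
    rw [ha, hb] at h
    push_cast at h
    have h2 : (p : ℝ) * a ≤ p * (Real.exp 1 * b) := by linarith
    exact le_of_mul_le_mul_left h2 hpp
  · intro D hD D' hD' he
    rw [mem_coe, mem_XX hn hp.ne_zero] at hD hD'
    funext i
    have h1 := congrFun he i
    have h2 := (hD.2 i).2 (mem_univ i)
    have h3 := (hD'.2 i).2 (mem_univ i)
    simp only at h1
    rw [← Nat.div_mul_cancel h2, ← Nat.div_mul_cancel h3, h1]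

/-- pairs of close tuples -/
noncomputable def WW (q n : ℕ) (J : Finset (Fin q)) : Finset (Fin q → ℕ) :=
  (Fintype.piFinset fun _ : Fin q => n.divisors).filter
    (fun w => (∀ i ∈ J, ∀ j ∈ J, (w i : ℝ) ≤ Real.exp 1 * w j) ∧
      ∀ i ∉ J, ∀ j ∉ J, (w i : ℝ) ≤ Real.exp 1 * w j)

theorem mem_WW {q n : ℕ} {J : Finset (Fin q)} (hn : n ≠ 0) {w : Fin q → ℕ} :
    w ∈ WW q n J ↔ (∀ i, w i ∣ n) ∧ (∀ i ∈ J, ∀ j ∈ J, (w i : ℝ) ≤ Real.exp 1 * w j) ∧
      ∀ i ∉ J, ∀ j ∉ J, (w i : ℝ) ≤ Real.exp 1 * w j := by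
  unfold WW
  rw [mem_filter, Fintype.mem_piFinset]
  simp only [Nat.mem_divisors, ne_eq, hn, not_false_eq_true, and_true]

open Classical in
theorem card_XX_le {q n p : ℕ} {J : Finset (Fin q)} (hn : n ≠ 0) (hp : p.Prime) {i0 j0 : Fin q}
    (hi : i0 ∈ J) (hj : j0 ∉ J) : (XX q n p J).card ≤
      ((WW q n J).filter (fun w => (p : ℝ) * w i0 ≤ Real.exp 1 * w j0 ∧
        (w j0 : ℝ) ≤ Real.exp 1 * (p * w i0))).card := by
  have hpp : (0 : ℝ) < p := by exact_mod_cast hp.pos
  apply card_le_card_of_injOn (fun D i => if i ∈ J then D i / p else D i)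
  · intro D hD
    rw [mem_coe, mem_XX hn hp.ne_zero] at hD
    rw [mem_coe, mem_filter, mem_WW hn]
    refine ⟨⟨fun i => ?_, fun i hi j hj => ?_, fun i hi j hj => ?_⟩, ?_, ?_⟩
    · show (if i ∈ J then D i / p else D i) ∣ n
      split_ifs with h
      · exact div_dvd hp (hD.1.1 i) ((hD.2 i).2 h)
      · exact dvd_of_not hp (hD.1.1 i) (fun h' => h ((hD.2 i).1 h'))
    · simp only [hi, hj, if_true]
      obtain ⟨a, ha⟩ := (hD.2 i).2 hi
      obtain ⟨b, hb⟩ := (hD.2 j).2 hj
      have h := hD.1.2 i j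
      rw [ha, hb, Nat.mul_div_cancel_left _ hp.pos, Nat.mul_div_cancel_left _ hp.pos]
      rw [ha, hb] at h
      push_cast at h
      have h2 : (p : ℝ) * a ≤ p * (Real.exp 1 * b) := by linarith
      exact le_of_mul_le_mul_left h2 hpp
    · simp only [hi, hj, if_false]
      exact hD.1.2 i j
    · simp only [hi, hj, if_true, if_false]
      obtain ⟨a, ha⟩ := (hD.2 i0).2 hi
      have h := hD.1.2 i0 j0
      rw [ha] at h ⊢
      rw [Nat.mul_div_cancel_left _ hp.pos]
      push_cast at h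
      exact h
    · simp only [hi, hj, if_true, if_false]
      obtain ⟨a, ha⟩ := (hD.2 i0).2 hi
      have h := hD.1.2 j0 i0
      rw [ha] at h ⊢
      rw [Nat.mul_div_cancel_left _ hp.pos]
      push_cast at h
      exact h
  · intro D hD D' hD' he
    rw [mem_coe, mem_XX hn hp.ne_zero] at hD hD'
    funext i
    have h1 := congrFun he i
    simp only at h1
    by_cases h : i ∈ J
    · have h2 := (hD.2 i).2 h
      have h3 := (hD'.2 i).2 h
      simp only [h, if_true] at h1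
      rw [← Nat.div_mul_cancel h2, ← Nat.div_mul_cancel h3, h1]
    · simpa only [h, if_false] using h1

open Classical in
/-- close tuples indexed by a finite type -/
noncomputable def cl (ι : Type) [Fintype ι] (n : ℕ) : Finset (ι → ℕ) :=
  (Fintype.piFinset fun _ : ι => n.divisors).filter
    (fun d => ∀ i j, (d i : ℝ) ≤ Real.exp 1 * d j)

open Classical in
theorem mem_cl {ι : Type} [Fintype ι] {n : ℕ} {u : ι → ℕ} :
    u ∈ cl ι n ↔ (∀ i, u i ∈ n.divisors) ∧ ∀ i j, (u i : ℝ) ≤ Real.exp 1 * u j := by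
  unfold cl
  rw [mem_filter, Fintype.mem_piFinset]

open Classical in
theorem card_cl_le (ι : Type) [Fintype ι] (i0 : ι) (n : ℕ) :
    (cl ι n).card ≤ TT (Fintype.card ι - 1) n := by
  unfold TT
  have hmaps : ((cl ι n : Finset (ι → ℕ)) : Set (ι → ℕ)).MapsTo (fun u => u i0)
      (n.divisors : Set ℕ) := by
    intro u hu
    rw [mem_coe, cl, mem_filter, Fintype.mem_piFinset] at hu
    exact hu.1 i0
  rw [card_eq_sum_card_fiberwise hmaps]
  apply sum_le_sum
  intro d hd
  have hsub : (cl ι n).filter (fun u => u i0 = d) ⊆ Fintype.piFinset (fun i : ι =>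
      if i = i0 then {d} else (n.divisors.filter (fun d' : ℕ =>
        (d : ℝ) ≤ Real.exp 1 * d' ∧ (d' : ℝ) ≤ Real.exp 1 * d))) := by
    intro u hu
    rw [mem_filter, cl, mem_filter, Fintype.mem_piFinset] at hu
    rw [Fintype.mem_piFinset]
    intro i
    split_ifs with h
    · rw [h, mem_singleton]; exact hu.2
    · rw [mem_filter, ← hu.2]
      exact ⟨hu.1.1 i, hu.1.2 i0 i, hu.1.2 i i0⟩
  refine (card_le_card hsub).trans (le_of_eq ?_)
  rw [Fintype.card_piFinset, ← mul_prod_erase univ _ (mem_univ i0), if_pos rfl, card_singleton,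
    one_mul]
  have h2 : ∀ i ∈ univ.erase i0, (if i = i0 then {d} else (n.divisors.filter (fun d' : ℕ =>
        (d : ℝ) ≤ Real.exp 1 * d' ∧ (d' : ℝ) ≤ Real.exp 1 * d))).card = wn n d := by
    intro i hi
    rw [if_neg (ne_of_mem_erase hi)]
    rfl
  rw [prod_congr rfl h2, prod_const, card_erase_of_mem (mem_univ _), card_univ]

open Classical in
theorem card_WW_le {q n : ℕ} {J : Finset (Fin q)} (hn : n ≠ 0) {i0 j0 : Fin q}
    (hi : i0 ∈ J) (hj : j0 ∉ J) :
    (WW q n J).card ≤ TT (J.card - 1) n * TT (q - J.card - 1) n := by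
  have h1 := card_cl_le {i // i ∈ J} ⟨i0, hi⟩ n
  have h2 := card_cl_le {i // i ∉ J} ⟨j0, hj⟩ n
  have e1 : Fintype.card {i // i ∈ J} = J.card := Fintype.card_coe J
  have e2 : Fintype.card {i // i ∉ J} = q - J.card := by
    rw [Fintype.card_subtype_compl, e1, Fintype.card_fin]
  rw [e1] at h1
  rw [e2] at h2
  refine le_trans ?_ (Nat.mul_le_mul h1 h2)
  rw [← card_product]
  apply card_le_card_of_injOn
    (fun w => ((fun i : {i // i ∈ J} => w i.1), (fun i : {i // i ∉ J} => w i.1)))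
  · intro w hw
    rw [mem_coe, mem_WW hn] at hw
    rw [mem_coe, mem_product]
    constructor
    · rw [mem_cl]
      exact ⟨fun i => Nat.mem_divisors.2 ⟨hw.1 i.1, hn⟩, fun i j => hw.2.1 i.1 i.2 j.1 j.2⟩
    · rw [mem_cl]
      exact ⟨fun i => Nat.mem_divisors.2 ⟨hw.1 i.1, hn⟩, fun i j => hw.2.2 i.1 i.2 j.1 j.2⟩
  · intro w hw w' hw' he
    rw [Prod.mk.injEq] at he
    funext i
    by_cases h : i ∈ J
    · exact congrFun he.1 ⟨i, h⟩
    · exact congrFun he.2 ⟨i, h⟩

theorem lower {q n p : ℕ} (hq : 2 ≤ q) (hn : n ≠ 0) (hp : p.Prime) (hpn : ¬ p ∣ n) :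
    2 * NQ q n ≤ NQ q (n * p) := by
  have hpp : (0 : ℝ) < p := by exact_mod_cast hp.pos
  have h0 : tup q n ∪ (tup q n).image (fun u i => p * u i) ⊆ tup q (n * p) := by
    intro D hD
    rw [mem_tup (mul_ne_zero hn hp.ne_zero)]
    rcases mem_union.1 hD with h | h
    · rw [mem_tup hn] at h
      exact ⟨fun i => Dvd.dvd.mul_right (h.1 i) p, h.2⟩
    · obtain ⟨u, hu, rfl⟩ := mem_image.1 h
      rw [mem_tup hn] at hu
      refine ⟨fun i => ?_, fun i j => ?_⟩
      · rw [mul_comm n p]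
        exact Nat.mul_dvd_mul_left p (hu.1 i)
      · have := hu.2 i j
        push_cast
        nlinarith
  have hdisj : Disjoint (tup q n) ((tup q n).image (fun u i => p * u i)) := by
    rw [disjoint_left]
    intro D hD hD'
    obtain ⟨u, hu, rfl⟩ := mem_image.1 hD'
    rw [mem_tup hn] at hD
    exact hpn ((Dvd.intro _ rfl).trans (hD.1 ⟨0, by omega⟩))
  have h1 := card_le_card h0
  rw [card_union_of_disjoint hdisj, card_image_of_injective] at h1
  · unfold NQ
    omega
  · intro u u' h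
    funext i
    have := congrFun h i
    exact Nat.eq_of_mul_eq_mul_left hp.pos this

open Classical in
theorem cross_J {q n : ℕ} (hn : n ≠ 0) {S : Finset ℕ} {K : ℝ}
    (hS : ∀ p ∈ S, p.Prime ∧ ¬ p ∣ n)
    (hK : ∀ x : ℝ, 0 < x → ∑ p ∈ S.filter (fun p : ℕ => x ≤ p ∧ (p : ℝ) ≤ Real.exp 2 * x),
      1 / (p : ℝ) ≤ K) {J : Finset (Fin q)} {i0 j0 : Fin q} (hi : i0 ∈ J) (hj : j0 ∉ J) :
    ∑ p ∈ S, ((XX q n p J).card : ℝ) / p ≤ K * (TT (J.card - 1) n * TT (q - J.card - 1) n) := by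
  have hK0 : 0 ≤ K := le_trans (sum_nonneg fun p _ => by positivity) (hK 1 one_pos)
  calc ∑ p ∈ S, ((XX q n p J).card : ℝ) / p
      ≤ ∑ p ∈ S, ∑ w ∈ WW q n J, (if (p : ℝ) * w i0 ≤ Real.exp 1 * w j0 ∧
        (w j0 : ℝ) ≤ Real.exp 1 * (p * w i0) then 1 / (p : ℝ) else 0) := by
        apply sum_le_sum
        intro p hp
        have hpr := (hS p hp).1
        have hpp : (0 : ℝ) < p := by exact_mod_cast hpr.pos
        rw [← sum_filter, sum_const, nsmul_eq_mul, mul_one_div]
        apply div_le_div_of_nonneg_right _ hpp.le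
        exact_mod_cast card_XX_le hn hpr hi hj
    _ = ∑ w ∈ WW q n J, ∑ p ∈ S, (if (p : ℝ) * w i0 ≤ Real.exp 1 * w j0 ∧
        (w j0 : ℝ) ≤ Real.exp 1 * (p * w i0) then 1 / (p : ℝ) else 0) := sum_comm
    _ ≤ ∑ w ∈ WW q n J, K := by
        apply sum_le_sum
        intro w hw
        rw [mem_WW hn] at hw
        have ha : (0 : ℝ) < w i0 := by
          exact_mod_cast Nat.pos_of_dvd_of_pos (hw.1 i0) (Nat.pos_of_ne_zero hn)
        have hb : (0 : ℝ) < w j0 := by
          exact_mod_cast Nat.pos_of_dvd_of_pos (hw.1 j0) (Nat.pos_of_ne_zero hn)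
        have he := Real.exp_pos 1
        rw [← sum_filter]
        refine le_trans (le_of_eq ?_) (hK ((w j0 : ℝ) / (Real.exp 1 * w i0)) (by positivity))
        apply sum_congr _ (fun _ _ => rfl)
        apply filter_congr
        intro p hp
        rw [div_le_iff₀ (by positivity)]
        have h2 : Real.exp 2 = Real.exp 1 * Real.exp 1 := by
          rw [← Real.exp_add]; norm_num
        have h3 : Real.exp 2 * ((w j0 : ℝ) / (Real.exp 1 * w i0)) =
            Real.exp 1 * w j0 / w i0 := by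
          rw [h2]; field_simp
        rw [h3, le_div_iff₀ ha]
        constructor
        · rintro ⟨h4, h5⟩
          exact ⟨by linarith, h4⟩
        · rintro ⟨h4, h5⟩
          exact ⟨h5, by linarith⟩
    _ = K * ((WW q n J).card : ℝ) := by rw [sum_const, nsmul_eq_mul, mul_comm]
    _ ≤ K * (TT (J.card - 1) n * TT (q - J.card - 1) n) := by
        apply mul_le_mul_of_nonneg_left _ hK0
        exact_mod_cast card_WW_le hn hi hj

open Classical in
theorem upper {q n : ℕ} (hq : 2 ≤ q) (hn : n ≠ 0) (S : Finset ℕ) (K : ℝ)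
    (hS : ∀ p ∈ S, p.Prime ∧ ¬ p ∣ n)
    (hK : ∀ x : ℝ, 0 < x → ∑ p ∈ S.filter (fun p : ℕ => x ≤ p ∧ (p : ℝ) ≤ Real.exp 2 * x),
      1 / (p : ℝ) ≤ K) :
    ∑ p ∈ S, ((NQ q (n * p) : ℝ) - 2 * NQ q n) / p
      ≤ K * ∑ j ∈ Ico 1 q, (q.choose j : ℝ) * (TT (j - 1) n * TT (q - j - 1) n) := by
  set T : Finset (Finset (Fin q)) := univ.filter (fun J => J ≠ ∅ ∧ J ≠ univ) with hT
  have hone : ∀ p ∈ S, ((NQ q (n * p) : ℝ) - 2 * NQ q n) / p ≤
      ∑ J ∈ T, ((XX q n p J).card : ℝ) / p := by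
    intro p hp
    have hpr := (hS p hp).1
    have hpp : (0 : ℝ) < p := by exact_mod_cast hpr.pos
    rw [← sum_div]
    apply div_le_div_of_nonneg_right _ hpp.le
    have h1 : NQ q (n * p) ≤ 2 * NQ q n + ∑ J ∈ T, (XX q n p J).card := by
      rw [card_tup_eq]
      have hne : (univ : Finset (Fin q)) ≠ ∅ := by
        intro h
        have := mem_univ (⟨0, by omega⟩ : Fin q)
        rw [h] at this
        exact notMem_empty _ this
      have hsplit : ∑ J : Finset (Fin q), (XX q n p J).card =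
          ∑ J ∈ ({∅, univ} : Finset (Finset (Fin q))), (XX q n p J).card +
            ∑ J ∈ T, (XX q n p J).card := by
        rw [← sum_union]
        · apply sum_congr _ (fun _ _ => rfl)
          ext J
          simp only [hT, mem_univ, mem_union, mem_insert, mem_singleton, mem_filter, true_and,
            true_iff]
          tauto
        · rw [disjoint_left]
          intro J hJ hJ'
          simp only [hT, mem_insert, mem_singleton, mem_filter, mem_univ, true_and] at hJ hJ'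
          tauto
      rw [hsplit, sum_pair hne.symm]
      have h2 := card_empty_le (q := q) hn hpr
      have h3 := card_univ_le (q := q) hn hpr
      omega
    have h2 : (NQ q (n * p) : ℝ) ≤ 2 * NQ q n + ∑ J ∈ T, ((XX q n p J).card : ℝ) := by
      exact_mod_cast h1
    linarith
  refine (sum_le_sum hone).trans ?_
  rw [sum_comm]
  have htwo : ∀ J ∈ T, ∑ p ∈ S, ((XX q n p J).card : ℝ) / p ≤
      K * (TT (J.card - 1) n * TT (q - J.card - 1) n) := by
    intro J hJ
    rw [hT, mem_filter] at hJ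
    obtain ⟨i0, hi0⟩ := nonempty_iff_ne_empty.2 hJ.2.1
    obtain ⟨j0, hj0⟩ : ∃ j0, j0 ∉ J := by
      by_contra hcon
      push Not at hcon
      exact hJ.2.2 (eq_univ_iff_forall.2 hcon)
    exact cross_J hn hS hK hi0 hj0
  refine (sum_le_sum htwo).trans (le_of_eq ?_)
  rw [← mul_sum]
  congr 1
  -- sum over the subsets by cardinality
  set f : ℕ → ℝ := fun j => if 1 ≤ j ∧ j < q then
    ((TT (j - 1) n : ℝ) * TT (q - j - 1) n) else 0 with hf
  have h1 : ∑ J ∈ T, ((TT (J.card - 1) n : ℝ) * TT (q - J.card - 1) n) =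
      ∑ J ∈ (univ : Finset (Fin q)).powerset, f J.card := by
    rw [powerset_univ, hT, sum_filter]
    apply sum_congr rfl
    intro J _
    simp only [hf]
    have hiff : (J ≠ ∅ ∧ J ≠ univ) ↔ (1 ≤ J.card ∧ J.card < q) := by
      constructor
      · rintro ⟨h, h'⟩
        refine ⟨card_pos.2 (nonempty_iff_ne_empty.2 h), ?_⟩
        have := (card_lt_iff_ne_univ J).2 h'
        rwa [Fintype.card_fin] at this
      · rintro ⟨h, h'⟩
        refine ⟨nonempty_iff_ne_empty.1 (card_pos.1 h), ?_⟩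
        apply (card_lt_iff_ne_univ J).1
        rwa [Fintype.card_fin]
    by_cases hc : 1 ≤ J.card ∧ J.card < q
    · rw [if_pos hc, if_pos (hiff.2 hc)]
    · rw [if_neg hc, if_neg (fun h => hc (hiff.1 h))]
  rw [h1, sum_powerset_apply_card, card_univ, Fintype.card_fin]
  have h2 : Ico 1 q = (range (q + 1)).filter (fun j => 1 ≤ j ∧ j < q) := by
    ext j
    simp only [mem_Ico, mem_filter, mem_range]
    omega
  rw [h2, sum_filter]
  apply sum_congr rfl
  intro j _
  simp only [hf]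
  split_ifs
  · rw [nsmul_eq_mul]
  · rw [nsmul_zero]

theorem cross : GCross := by
  intro q n hq hn
  exact ⟨fun p hp hpn => lower hq hn hp hpn, fun S K hS hK => upper hq hn S K hS hK⟩

end Pool.Agent.Helper33.Lang
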