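import Pool.Agent.Helper48.Lang.Goals

/-!
# Packet KP of the project LANG (MP_c7dfba_nt): passage from `R` to `K`
-/

set_option autoImplicit false

namespace Pool.Agent.Helper33.Lang

open MvPolynomial Pool.Agent.Helper48.Lang

universe u v

/-- the values of a polynomial on a finite-dimensional subspace lie in a finite-dimensional
subspace. -/
theorem exists_fg {R : Type v} {K : Type u} [Field R] [Field K] [Algebra R K] {n : ℕ}
    (A : Submodule R K) (hA : A.FG) (f : MvPolynomial (Fin n) K) :
    ∃ W : Submodule R K, W.FG ∧ ∀ x : Fin n → K, (∀ i, x i ∈ A) → eval x f ∈ W := by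
  induction f using MvPolynomial.induction_on with
  | C a =>
    refine ⟨Submodule.span R {a}, Submodule.fg_span (Set.finite_singleton a), fun x _ => ?_⟩
    rw [eval_C]
    exact Submodule.mem_span_singleton_self a
  | add p q hp hq =>
    obtain ⟨W, hW, h⟩ := hp
    obtain ⟨W', hW', h'⟩ := hq
    refine ⟨W ⊔ W', hW.sup hW', fun x hx => ?_⟩
    rw [eval_add]
    exact Submodule.add_mem_sup (h x hx) (h' x hx)
  | mul_X p i hp =>
    obtain ⟨W, hW, h⟩ := hp
    refine ⟨W * A, hW.mul hA, fun x hx => ?_⟩
    rw [eval_mul, eval_X]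
    exact Submodule.mul_mem_mul (h x hx) (hx i)

/-- finitely many functionals separate the points of a finite-dimensional subspace. -/
theorem exists_functionals {R : Type v} {K : Type u} [Field R] [Field K] [Algebra R K]
    (W : Submodule R K) (hW : W.FG) :
    ∃ (t : ℕ) (φ : Fin t → K →ₗ[R] R), ∀ w ∈ W, (∀ l, φ l w = 0) → w = 0 := by
  have : Module.Finite R W := Module.Finite.iff_fg.mpr hW
  let b := Module.finBasis R W
  have h : ∀ l, ∃ g : K →ₗ[R] R, g.comp W.subtype = b.coord l := fun l =>
    LinearMap.exists_extend (b.coord l)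
  choose φ hφ using h
  refine ⟨_, φ, fun w hw h0 => ?_⟩
  have h1 : b.repr ⟨w, hw⟩ = 0 := by
    ext l
    have h2 := LinearMap.congr_fun (hφ l) ⟨w, hw⟩
    rw [LinearMap.comp_apply, Submodule.subtype_apply, h0 l] at h2
    rw [← Module.Basis.coord_apply, ← h2]
    rfl
  have h3 : (⟨w, hw⟩ : W) = 0 := by
    rw [← b.repr.map_eq_zero_iff]
    exact h1
  exact congrArg Subtype.val h3

theorem D1_smul {n : ℕ} {K : Type u} [Field K] (f : MvPolynomial (Fin n) K) (x y : Fin n → K)
    (c : K) : D1 f x (fun i => c * y i) = c * D1 f x y := by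
  unfold D1
  rw [Finset.mul_sum]
  refine Finset.sum_congr rfl fun p _ => ?_
  ring

theorem D2_smul {n : ℕ} {K : Type u} [Field K] (f : MvPolynomial (Fin n) K) (x y : Fin n → K)
    (c : K) : D2 f x (fun i => c * y i) = c ^ 2 * D2 f x y := by
  unfold D2
  rw [Finset.mul_sum]
  refine Finset.sum_congr rfl fun p _ => ?_
  rw [Finset.mul_sum]
  refine Finset.sum_congr rfl fun q _ => ?_
  ring

/-- **KP**. -/
theorem c_kp (h1 : S_LC.{v}) (h2 : S_CHAIN.{u, v}) (h3 : S_MPT.{v}) : S_KP.{u, v} := by
  intro R K _ _ _ _ n r s d f hd hf A B hA u hu0 hu hAB hy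
  have hAfg : A.FG := Module.Finite.iff_fg.mp hA
  -- `n` is not zero and `A` is not zero
  obtain ⟨y0, hy0, hy0B, -⟩ := hy (fun _ => 0) (fun _ => A.zero_mem)
  obtain ⟨i0, hi0⟩ : ∃ i, y0 i ≠ 0 := by
    by_contra hcon
    push Not at hcon
    exact hy0 (funext hcon)
  have hi0A : y0 i0 ∈ A := by
    have := hAB 0 _ (hy0B i0)
    rwa [hu0, one_mul] at this
  let b := Module.finBasis R A
  set m := Module.finrank R A with hm
  have hmpos : 0 < m := by
    rcases Nat.eq_zero_or_pos m with h | h
    · exfalso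
      have : Subsingleton A := Module.finrank_zero_iff.mp (hm ▸ h)
      have h5 : (⟨y0 i0, hi0A⟩ : A) = 0 := Subsingleton.elim _ _
      exact hi0 (congrArg Subtype.val h5)
    · exact h
  have hnpos : 0 < n := lt_of_le_of_lt (Nat.zero_le _) i0.2
  -- coordinates
  let e : Fin n → Fin (n * m) → K := fun i c =>
    if (finProdFinEquiv.symm c).1 = i then ((b (finProdFinEquiv.symm c).2 : A) : K) else 0
  let E : (Fin (n * m) → R) → Fin n → K := fun z i => ∑ c, z c • e i c
  have hE : ∀ z i, E z i = ((∑ c : Fin m, z (finProdFinEquiv (i, c)) • b c : A) : K) := by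
    intro z i
    show ∑ c, z c • e i c = _
    rw [← finProdFinEquiv.sum_comp, Fintype.sum_prod_type, Finset.sum_eq_single i]
    · rw [Submodule.coe_sum]
      refine Finset.sum_congr rfl fun c _ => ?_
      simp only [e, Equiv.symm_apply_apply, if_true]
      rfl
    · intro j _ hj
      refine Finset.sum_eq_zero fun c _ => ?_
      simp only [e, Equiv.symm_apply_apply, if_neg hj, smul_zero]
    · intro h
      exact absurd (Finset.mem_univ i) h
  have hEA : ∀ z i, E z i ∈ A := by
    intro z i
    rw [hE]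
    exact Subtype.mem _
  -- surjectivity
  have hcd : ∀ x : Fin n → K, (∀ i, x i ∈ A) → ∃ z, E z = x := by
    intro x hx
    refine ⟨fun c => b.repr ⟨x (finProdFinEquiv.symm c).1, hx _⟩ (finProdFinEquiv.symm c).2, ?_⟩
    funext i
    rw [hE]
    have h5 := b.sum_repr ⟨x i, hx i⟩
    have h6 := congrArg (Subtype.val : A → K) h5
    simp only [Equiv.symm_apply_apply]
    exact h6
  -- injectivity
  have hE0 : ∀ z, E z = 0 → z = 0 := by
    intro z hz
    have h5 : ∀ i : Fin n, ∀ c : Fin m, z (finProdFinEquiv (i, c)) = 0 := by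
      intro i
      have h6 : (∑ c : Fin m, z (finProdFinEquiv (i, c)) • b c : A) = 0 := by
        apply Subtype.ext
        rw [← hE, hz]
        rfl
      exact Fintype.linearIndependent_iff.mp b.linearIndependent _ h6
    funext c
    have h7 := h5 (finProdFinEquiv.symm c).1 (finProdFinEquiv.symm c).2
    rw [Prod.mk.eta, Equiv.apply_symm_apply] at h7
    exact h7
  have hE0' : E 0 = 0 := by
    funext i
    simp [E]
  -- the space of values
  have hW : ∀ j, ∃ W : Submodule R K, W.FG ∧ ∀ x : Fin n → K, (∀ i, x i ∈ A) →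
      eval x (f j) ∈ W := fun j => exists_fg A hAfg (f j)
  choose W hWfg hWm using hW
  obtain ⟨t, φ, hφ⟩ := exists_functionals (⨆ j, W j) (Submodule.fg_iSup W hWfg)
  -- the polynomials over `R`
  have hF : ∀ j l, ∃ F : MvPolynomial (Fin (n * m)) R, F.IsHomogeneous (d j) ∧
      ∀ z w : Fin (n * m) → R,
        eval z F = φ l (eval (E z) (f j)) ∧ D1 F z w = φ l (D1 (f j) (E z) (E w)) ∧
        D2 F z w = φ l (D2 (f j) (E z) (E w)) := fun j l =>
    h2 R K n (n * m) (d j) (f j) (hf j) e (φ l)
  choose F hFh hFe using hF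
  obtain ⟨z, hz0, hz⟩ := h1 R (h3 R) (n * m) (r * t) s
    (fun q => F (finProdFinEquiv.symm q).1 (finProdFinEquiv.symm q).2)
    (fun q => d (finProdFinEquiv.symm q).1) (Nat.mul_pos hnpos hmpos) (fun q => hd _)
    (fun q => hFh _ _) (by
      intro z
      obtain ⟨y, hy0, hyB, hyD⟩ := hy (E z) (hEA z)
      have hyA : ∀ a, ∃ w, E w = fun i => u a * y i := fun a =>
        hcd _ fun i => hAB a _ (hyB i)
      choose w hw using hyA
      refine ⟨w, ?_, ?_, ?_⟩
      · intro h
        have h8 := hw 0
        rw [h, hE0'] at h8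
        apply hy0
        funext i
        have h9 := congrFun h8 i
        rw [hu0, one_mul] at h9
        exact h9.symm
      · intro a q
        show D1 (F (finProdFinEquiv.symm q).1 (finProdFinEquiv.symm q).2) z _ = 0
        rw [(hFe _ _ z (w a)).2.1, hw, D1_smul, hyD, mul_zero, map_zero]
      · intro q
        show ∑ a, D2 (F (finProdFinEquiv.symm q).1 (finProdFinEquiv.symm q).2) z (w a) = 0
        have h8 : ∀ a, D2 (F (finProdFinEquiv.symm q).1 (finProdFinEquiv.symm q).2) z (w a)
            = φ (finProdFinEquiv.symm q).2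
              (u a ^ 2 * D2 (f (finProdFinEquiv.symm q).1) (E z) y) := by
          intro a
          rw [(hFe _ _ z (w a)).2.2, hw, D2_smul]
        simp_rw [h8]
        rw [← map_sum, ← Finset.sum_mul, hu, zero_mul, map_zero])
  refine ⟨E z, fun h => hz0 (hE0 z h), fun j => ?_⟩
  refine hφ _ (Submodule.mem_iSup_of_mem j (hWm j (E z) (hEA z))) fun l => ?_
  have h9 := hz (finProdFinEquiv (j, l))
  simp only [Equiv.symm_apply_apply] at h9
  rw [← (hFe j l z z).1]
  exact h9

end Pool.Agent.Helper33.Lang
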