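import Pool.Agent.Helper48.Lang.Goals
import Pool.Agent.Helper70.RC.Base

/-!
# Packet LC of the project LANG (MP_c7dfba_nt): conclusion of the minimum principle
-/

set_option autoImplicit false

namespace Pool.Agent.Helper33.Lang

open MvPolynomial Pool.Agent.Helper48.Lang

universe u

/-- the second derivative in a direction killed by the first derivatives. -/
theorem second_eq {R : Type u} [Field R] {N k : ℕ} (F : Fin k → MvPolynomial (Fin N) R)
    (x : Fin N → R) (L : Fin N → Fin N → R) (M : Fin k → Fin N → R)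
    (h : ∀ p q, ∑ l, eval x (F l) * eval x (pderiv p (pderiv q (F l)))
        = (∑ l, eval x (F l) ^ 2) * (if p = q then 1 else 0) + ∑ a, L a p * L a q
          + ∑ l, (M l p * eval x (pderiv q (F l)) + M l q * eval x (pderiv p (F l))))
    (v : Fin N → R) (hv : ∀ l, D1 (F l) x v = 0) :
    ∑ l, eval x (F l) * D2 (F l) x v
      = (∑ l, eval x (F l) ^ 2) * ∑ p, v p ^ 2 + ∑ a, (∑ p, L a p * v p) ^ 2 := by
  have h1 : ∑ l, eval x (F l) * D2 (F l) x v
      = ∑ p, ∑ q, (∑ l, eval x (F l) * eval x (pderiv p (pderiv q (F l)))) * (v p * v q) := by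
    unfold D2
    simp_rw [Finset.mul_sum, Finset.sum_mul]
    rw [Finset.sum_comm]
    refine Finset.sum_congr rfl fun p _ => ?_
    rw [Finset.sum_comm]
    refine Finset.sum_congr rfl fun q _ => ?_
    refine Finset.sum_congr rfl fun l _ => ?_
    ring
  have hA : ∑ p, ∑ q, ((∑ l, eval x (F l) ^ 2) * (if p = q then 1 else 0)) * (v p * v q)
      = (∑ l, eval x (F l) ^ 2) * ∑ p, v p ^ 2 := by
    rw [Finset.mul_sum]
    refine Finset.sum_congr rfl fun p _ => ?_
    rw [Finset.sum_eq_single p]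
    · rw [if_pos rfl]
      ring
    · intro q _ hq
      rw [if_neg (Ne.symm hq)]
      ring
    · intro h
      exact absurd (Finset.mem_univ p) h
  have hB : ∑ p, ∑ q, (∑ a, L a p * L a q) * (v p * v q) = ∑ a, (∑ p, L a p * v p) ^ 2 := by
    simp_rw [pow_two, Finset.sum_mul_sum, Finset.sum_mul]
    rw [Finset.sum_comm' (t' := Finset.univ) (s' := fun _ => Finset.univ) (by simp)]
    rw [Finset.sum_comm]
    have : ∀ p, ∑ q, ∑ a, L a p * L a q * (v p * v q)
        = ∑ a, ∑ q, L a p * v p * (L a q * v q) := by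
      intro p
      rw [Finset.sum_comm]
      refine Finset.sum_congr rfl fun a _ => ?_
      refine Finset.sum_congr rfl fun q _ => ?_
      ring
    simp_rw [this]
    rw [Finset.sum_comm]
  have hC : ∑ p, ∑ q, (∑ l, (M l p * eval x (pderiv q (F l)) + M l q * eval x (pderiv p (F l))))
      * (v p * v q) = 0 := by
    have h2 : ∀ l, (∑ p, M l p * v p) * D1 (F l) x v + D1 (F l) x v * (∑ p, M l p * v p) = 0 := by
      intro l
      rw [hv]
      ring
    have h3 : ∀ l, (∑ p, M l p * v p) * D1 (F l) x v + D1 (F l) x v * (∑ p, M l p * v p)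
        = ∑ p, ∑ q, (M l p * eval x (pderiv q (F l)) + M l q * eval x (pderiv p (F l)))
          * (v p * v q) := by
      intro l
      unfold D1
      rw [Finset.sum_mul_sum, Finset.sum_mul_sum, ← Finset.sum_add_distrib]
      refine Finset.sum_congr rfl fun p _ => ?_
      rw [← Finset.sum_add_distrib]
      refine Finset.sum_congr rfl fun q _ => ?_
      ring
    have h4 : ∑ l, ∑ p, ∑ q, (M l p * eval x (pderiv q (F l)) + M l q * eval x (pderiv p (F l)))
          * (v p * v q) = 0 := by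
      refine Finset.sum_eq_zero fun l _ => ?_
      rw [← h3, h2]
    rw [← h4]
    simp_rw [Finset.sum_mul]
    rw [Finset.sum_comm (s := (Finset.univ : Finset (Fin k)))]
    refine Finset.sum_congr rfl fun p _ => ?_
    rw [Finset.sum_comm]
  have hsum : ∀ A B C : Fin N → Fin N → R,
      ∑ p, ∑ q, (A p q + B p q + C p q) * (v p * v q)
        = ∑ p, ∑ q, A p q * (v p * v q) + ∑ p, ∑ q, B p q * (v p * v q)
          + ∑ p, ∑ q, C p q * (v p * v q) := by
    intro A B C
    rw [← Finset.sum_add_distrib, ← Finset.sum_add_distrib]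
    refine Finset.sum_congr rfl fun p _ => ?_
    rw [← Finset.sum_add_distrib, ← Finset.sum_add_distrib]
    refine Finset.sum_congr rfl fun q _ => ?_
    ring
  rw [h1]
  simp_rw [h]
  rw [hsum, hA, hB, hC, add_zero]

/-- **LC**. -/
theorem c_lc : S_LC.{u} := by
  intro R _ _ hMP N k s F D hN hD hF hv
  obtain ⟨_, _⟩ := Pool.Agent.Helper70.RC.exists_order R
  obtain ⟨x, L, M, hx, h⟩ := hMP N k F D hN hD hF
  obtain ⟨v, hv0, hv1, hv2⟩ := hv x
  have hx0 : x ≠ 0 := by
    rintro rfl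
    simp at hx
  refine ⟨x, hx0, ?_⟩
  have h1 : ∀ a, ∑ l, eval x (F l) * D2 (F l) x (v a)
      = (∑ l, eval x (F l) ^ 2) * ∑ p, v a p ^ 2 + ∑ b, (∑ p, L b p * v a p) ^ 2 := fun a =>
    second_eq F x L M h (v a) (hv1 a)
  have h2 : ∑ a, ((∑ l, eval x (F l) ^ 2) * ∑ p, v a p ^ 2 + ∑ b, (∑ p, L b p * v a p) ^ 2)
      = 0 := by
    simp_rw [← h1]
    rw [Finset.sum_comm]
    refine Finset.sum_eq_zero fun l _ => ?_
    rw [← Finset.mul_sum, hv2, mul_zero]
  have hg : 0 ≤ ∑ l, eval x (F l) ^ 2 := Finset.sum_nonneg fun l _ => sq_nonneg _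
  have h3 : ∀ a ∈ (Finset.univ : Finset (Fin (s + 1))), 0 ≤ (∑ l, eval x (F l) ^ 2) *
      ∑ p, v a p ^ 2 + ∑ b, (∑ p, L b p * v a p) ^ 2 := fun a _ =>
    add_nonneg (mul_nonneg hg (Finset.sum_nonneg fun p _ => sq_nonneg _))
      (Finset.sum_nonneg fun p _ => sq_nonneg _)
  have h4 := (Finset.sum_eq_zero_iff_of_nonneg h3).mp h2 0 (Finset.mem_univ _)
  have h5 : (∑ l, eval x (F l) ^ 2) * ∑ p, v 0 p ^ 2 = 0 := by
    have h6 : 0 ≤ (∑ l, eval x (F l) ^ 2) * ∑ p, v 0 p ^ 2 :=
      mul_nonneg hg (Finset.sum_nonneg fun p _ => sq_nonneg _)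
    have h7 : 0 ≤ ∑ b, (∑ p, L b p * v 0 p) ^ 2 := Finset.sum_nonneg fun p _ => sq_nonneg _
    linarith
  have h8 : ∑ p, v 0 p ^ 2 ≠ 0 := by
    intro h9
    apply hv0
    funext p
    have h10 := (Finset.sum_eq_zero_iff_of_nonneg (fun p _ => sq_nonneg (v 0 p))).mp h9 p
      (Finset.mem_univ _)
    exact pow_eq_zero_iff (two_ne_zero) |>.mp h10
  have h9 : ∑ l, eval x (F l) ^ 2 = 0 := by
    rcases mul_eq_zero.mp h5 with h | h
    · exact h
    · exact absurd h h8
  intro l
  have h10 := (Finset.sum_eq_zero_iff_of_nonneg (fun l _ => sq_nonneg (eval x (F l)))).mp h9 l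
    (Finset.mem_univ _)
  exact pow_eq_zero_iff (two_ne_zero) |>.mp h10

end Pool.Agent.Helper33.Lang
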